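import Mathlib
import Pool.Agent.LibPK60.Final

/-!
# Voisin's conjecture for families of Calabi-Yau hypersurfaces: `D · Γ` for all curves `Γ`
-/

open scoped Classical
open MvPolynomial
open Pool.Agent.LibPC60 Pool.Agent.LibBH2 Pool.Agent.LibQC8

namespace Pool.Agent.Results.MP_36704d_ag.CalabiYauFibrations

/-- Let `X → B` be a family of hypersurfaces of degree `N ≥ 2` in projective spaces of dimension
`N - 1`, over a rationally chain connected closed subset `B` of a product of projective spaces (for
example over the whole product, `E = ∅`). The degree of zero-cycles is well defined modulo rational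
equivalence, and there is a zero-cycle `ζ` of degree `N` such that for every curve `Γ` with a map to
`X` (a `K`-point `u` of `X`, `K` a function field of one variable), and every multidegree `D` in the
`ℚ`-span of the normal bundle `N h_0 + β` and of `L = β + σ` (`σ = ∑ γ_j + ∑ α_i`, the relative
canonical class) - for `N = 2` only of `L`; for every `D` if `N ≥ 3`, there is only one factor in the
base and `L ≠ 0` - the zero-cycle `D · Γ` exists and satisfies `N (D · Γ) = deg (D · Γ) ζ` in the
Chow group of zero-cycles of `X` with rational coefficients. -/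
theorem result {k : Type} [Field k] [IsAlgClosed k] [CharZero k] {J S : Type} [Fintype J]
    [Fintype S] {c N : ℕ} (hN : 2 ≤ N) (X : Fam k J S c N) (hB : X.E = ∅ ∨ RCC X) (y : BPt X k) :
    (∀ a : Cyc X, cl a = 0 → dg a = 0) ∧
    ∃ ζ : Cyc X, dg ζ = N ∧
      ∀ (K : Type) [Field K] [Algebra k K], IsFunctionField k K → ∀ (u : Pt X K) (D : Deg S),
        ((∃ n a b : ℤ, n ≠ 0 ∧ (N = 2 → a = 0) ∧ n • D = a • ((N : ℤ), X.β) + b • LL X) ∨
          (3 ≤ N ∧ Subsingleton S ∧ LL X ≠ 0)) →
        (∃ a, IsInt D u a) ∧ ∀ a, IsInt D u a → (N : ℚ) • cl a = dg a • cl ζ := by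
  have hB' : RCC X := hB.elim (fun h => rcc_of_empty X h) id
  obtain ⟨ζ, hζ, h⟩ := Pool.Agent.LibPK60.main_all X hN hB' y
  refine ⟨Pool.Agent.LibPN22.dg_zero X, ζ, hζ, fun K _ _ hK u D hD => ?_⟩
  refine h K hK u D ?_
  rcases hD with hD | ⟨hN3, hS, hL⟩
  · exact hD
  obtain ⟨s, hs⟩ : ∃ s : S, (X.β + sig X) s ≠ 0 := by
    by_contra hcon
    push Not at hcon
    apply hL
    unfold LL
    rw [show X.β + sig X = 0 from funext hcon]
    rfl
  have hN0 : (N : ℤ) ≠ 0 := by omega
  refine ⟨N * (X.β + sig X) s, D.1 * (X.β + sig X) s,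
    N * D.2 s - D.1 * X.β s, mul_ne_zero hN0 hs, fun h2 => absurd h2 (by omega), ?_⟩
  refine Prod.ext ?_ (funext fun t => ?_)
  · simp only [LL, Prod.smul_fst, Prod.fst_add, smul_eq_mul, mul_zero, add_zero]
    ring
  · have ht : t = s := Subsingleton.elim t s
    subst ht
    simp only [LL, Prod.smul_snd, Prod.snd_add, Pi.smul_apply, Pi.add_apply, smul_eq_mul]
    ring

end Pool.Agent.Results.MP_36704d_ag.CalabiYauFibrations
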