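import Mathlib
import Pool.Agent.LibVC22.Defs
import Pool.Agent.LibVC22.Main

/-!
# Voisin's conjecture on 0-cycles for fibrations in curves of genus one
-/

open Pool.Agent.LibVC22

namespace Pool.Agent.Results.MP_36704d_ag.GenusOneFibrations

/-- Let `π : X → B` be a fibration in curves of genus one with degenerate fibres over the non-empty
closed subset `Δ` of `B`. Then every zero-cycle `z` in the algebra generated by the divisors and the
Chern classes is `deg z` times the class of any point of a degenerate fibre. -/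
theorem result {X B : ChowData} (π : Mor X B) (Δ : Set B.Pt) (h : GenusOneFibration π Δ) :
    (∃ x, π.f x ∈ Δ) ∧ ∀ x, π.f x ∈ Δ →
      ∀ z ∈ Algebra.adjoin ℚ ((X.gr 1 : Set X.CH) ∪ Set.range X.chern),
        z ∈ X.gr X.dim → z = X.deg z • X.pt x := by
  refine ⟨?_, genus_one h⟩
  obtain ⟨b, hb⟩ := h.nonempty
  obtain ⟨H, hH, hHd⟩ := h.polar
  obtain ⟨T, -, hT, -⟩ := h.torsion H hH _ (hHd b) (fun b' => by rw [h.base b' b])
  obtain ⟨t, -, ht⟩ := hT b
  exact ⟨t, by rw [ht]; exact hb⟩

end Pool.Agent.Results.MP_36704d_ag.GenusOneFibrations
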