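import Mathlib
import Pool.Agent.LibVC22.Defs
import Pool.Agent.LibVC22.Main

/-!
# Voisin's conjecture on 0-cycles for fibrations in K3 surfaces
-/

open Pool.Agent.LibVC22

namespace Pool.Agent.Results.MP_36704d_ag.K3Fibrations

/-- Let `π : X → B` be a fibration in K3 surfaces. Then every zero-cycle `z` in the algebra
generated by the divisors and the Chern classes is `deg z / 24` times `c_2(X)` times a fibre. -/
theorem result {X B : ChowData} (π : Mor X B) (Δ : Set B.Pt) (Z : Set X.Pt)
    (h : K3Fibration π Δ Z) (b : B.Pt) :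
    ∀ z ∈ Algebra.adjoin ℚ ((X.gr 1 : Set X.CH) ∪ Set.range X.chern),
      z ∈ X.gr X.dim → z = X.deg z • ((24 : ℚ)⁻¹ • (X.chern 2 * π.pull (B.pt b))) :=
  k3 h b

end Pool.Agent.Results.MP_36704d_ag.K3Fibrations
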