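import Mathlib
import Pool.Agent.LibTC2.BMain

/-!
# Voisin's conjecture for Calabi-Yau hypersurfaces in toric varieties
-/

open scoped Classical
open MvPolynomial
open Pool.Agent.LibTC2 Pool.Agent.LibBH2 Pool.Agent.LibQC8

namespace Pool.Agent.Results.MP_36704d_ag.ToricHypersurfaces

/-- Let `P` be a smooth projective toric variety of dimension `r ≥ 4` over an algebraically closed field of
characteristic zero, `∑ g i D_i` a nef class with all `g i ≥ 1`, and let `X = {F = 0}` be a hypersurface of this
class which does not meet the divisors `D_i` with `g i ≥ 2` (so that `K_X = 0`), `F` not a monomial (so `X` is not a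
sum of toric divisors). If all `g i = 1`, `X` is any anticanonical hypersurface. In general `P` is a resolution of a
projective toric variety `P₀`, and `X` an anticanonical hypersurface of `P₀` contained in its smooth locus.
Then the degree of zero-cycles on `X` is well defined modulo rational equivalence, and there is a
zero-cycle `o` of degree one such that every rational curve `f` of `P`, of class `a`, meets `X` in
the multiple `(∑ g i a i) o`, in the Chow group of zero-cycles of `X` with rational coefficients. -/
theorem result {k : Type} [Field k] [IsAlgClosed k] [CharZero k] {ι : Type} [Fintype ι]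
    {r : ℕ} (hr : 4 ≤ r) (P : Tor ι r) (X : Hyp k P)
    (hF : ∀ (e : ι →₀ ℕ) (c : k), X.F ≠ monomial e c) :
    (∀ a : Cyc X, cl a = 0 → dg a = 0) ∧
      ∃ o : Cyc X, dg o = 1 ∧ ∀ (a : ι → ℤ) (f : ι → Polynomial k), IsMap P a f →
        cl (fcyc X a f) = ((dk P a : ℤ) : ℚ) • cl o := by
  refine main_big hr X ?_
  obtain ⟨e, he⟩ : ∃ e, e ∈ X.F.support := by
    by_contra h
    push Not at h
    exact X.ne (MvPolynomial.support_eq_empty.1 (Finset.eq_empty_of_forall_notMem h))
  by_contra h
  push Not at h
  refine hF e (coeff e X.F) ?_
  ext d
  rw [coeff_monomial]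
  by_cases hd : e = d
  · rw [if_pos hd, hd]
  · rw [if_neg hd]
    by_contra hne
    exact hd (h e he d (MvPolynomial.mem_support_iff.2 hne))

end Pool.Agent.Results.MP_36704d_ag.ToricHypersurfaces
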